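import Pool.Agent.helper60.XP.SpecX

set_option autoImplicit false

open Complex Metric Set Filter Topology MeasureTheory
open V3S (UF)
open XP

noncomputable section

namespace XPX

/-- Interface to part G, case I. -/
theorem EN1M (h : XPE.ENDG_stmt) : EN1M_stmt := by
  intro P A g B v q θ hL
  refine h P A g B v q θ ?_
  obtain ⟨x, -, hx⟩ := hL.far
  exact {
    zero := hL.zero
    sep := ⟨1, one_pos, hL.sep⟩
    hg := hL.hg
    Bd := hL.Bd
    Bp := hL.Bp
    B2 := hL.B2
    vd := hL.vd
    v0 := hL.v0
    qd := hL.qd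
    qB := hL.qB
    A1 := hL.A1
    grp := hL.grp
    inv := hL.inv
    com := hL.com
    vA := hL.vA
    BA := hL.BA
    th := hL.th
    ne := ⟨x, fun he => by rw [he, sub_self, norm_zero] at hx; norm_num at hx⟩
    eF := hL.eF
    eZ := hL.eZ }

end XPX
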